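import Mathlib
import Pool.Agent.TH321.BR.Main

set_option autoImplicit false

/-!
Problem MP_68e57a_an, Q1 (and Q2), negative answer: over both scalar fields there is a separable
Banach space `X` such that the closed unit ball of `X` is not a uniformly continuous retract of the
closed unit ball of the bidual.

The space is the `c_0`-type sum over `j` of `W = (⊕_n ℓ_∞^n)_1` with the equivalent norms
`max (‖Q w‖, ‖w‖ / (j + 1))`, where `Q : W → c_0` is the quotient map `(w_n) ↦ ∑ w_n`.
-/

namespace Pool.Agent.Results.MP_68e57a_an.SeparableNoRetract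

open Metric

/-- The bidual `X**`, with its norm. -/
abbrev Bidual (𝕜 X : Type) [RCLike 𝕜] [NormedAddCommGroup X] [NormedSpace 𝕜 X] : Type :=
  StrongDual 𝕜 (StrongDual 𝕜 X)

/-- The canonical embedding `X → X**`. -/
noncomputable def J (𝕜 X : Type) [RCLike 𝕜] [NormedAddCommGroup X] [NormedSpace 𝕜 X] (x : X) :
    Bidual 𝕜 X :=
  NormedSpace.inclusionInDoubleDual 𝕜 X x

/-- The closed unit ball of the bidual. -/
def BidualBall (𝕜 X : Type) [RCLike 𝕜] [NormedAddCommGroup X] [NormedSpace 𝕜 X] :
    Set (Bidual 𝕜 X) :=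
  closedBall 0 1

/-- `r` is a uniformly continuous map from the unit ball of `X**` to the unit ball of `X` with
`r (J x) = x` for all `x` in the unit ball of `X`. -/
def IsRetraction (𝕜 X : Type) [RCLike 𝕜] [NormedAddCommGroup X] [NormedSpace 𝕜 X]
    (r : BidualBall 𝕜 X → closedBall (0 : X) 1) : Prop :=
  UniformContinuous r ∧
    ∀ (x : closedBall (0 : X) 1) (ξ : BidualBall 𝕜 X), ξ.1 = J 𝕜 X x.1 → r ξ = x

/-- There is a separable Banach space `X` over `𝕜` (`𝕜 = ℝ` or `ℂ`) such that the closed unit ball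
of `X` is not a uniformly continuous retract of the closed unit ball of `X**`. -/
theorem result (𝕜 : Type) [RCLike 𝕜] :
    ∃ (X : Type) (_ : NormedAddCommGroup X) (_ : NormedSpace 𝕜 X),
      CompleteSpace X ∧ TopologicalSpace.SeparableSpace X ∧ ¬ ∃ r, IsRetraction 𝕜 X r :=
  Pool.Agent.TH321.BR.main 𝕜

end Pool.Agent.Results.MP_68e57a_an.SeparableNoRetract
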